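import Mathlib

/-!
# MP_5aad23_co, Q1: weak ascent sequences avoiding `210` and permutations avoiding `2-41-3`
-/

namespace Pool.Agent.Results.MP_5aad23_co.SemiBaxter

open Finset

/-- number of weak ascents of the prefix of length `i` of `a` -/
def wasc {n : ℕ} (a : Fin n → ℕ) (i : ℕ) : ℕ :=
  #{j : Fin n | ∃ j' : Fin n, j'.val = j.val + 1 ∧ j'.val < i ∧ a j ≤ a j'}

/-- weak ascent sequences: the first entry is `0`, and every other entry is at most one more than
the number of weak ascents of the preceding prefix (positions are `0, …, n-1`) -/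
def IsWAS {n : ℕ} (a : Fin n → ℕ) : Prop :=
  (∀ i, i.val = 0 → a i = 0) ∧ ∀ i, 0 < i.val → a i ≤ 1 + wasc a i.val

/-- `a` avoids `210` -/
def Avoid210 {n : ℕ} (a : Fin n → ℕ) : Prop :=
  ¬ ∃ i j k : Fin n, i < j ∧ j < k ∧ a i > a j ∧ a j > a k

/-- `w_{210}(n)` -/
noncomputable def w210 (n : ℕ) : ℕ := Set.ncard {a : Fin n → ℕ | IsWAS a ∧ Avoid210 a}

/-- `π` avoids the vincular pattern `2-41-3`: there are no positions `i < j`, `j' = j + 1 < k` with
`π j' < π i < π k < π j` -/
def AvoidV {n : ℕ} (π : Fin n → Fin n) : Prop :=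
  ¬ ∃ i j j' k : Fin n, i < j ∧ j'.val = j.val + 1 ∧ j' < k ∧ π j' < π i ∧ π i < π k ∧ π k < π j

/-- `v(n)`: the number of permutations avoiding `2-41-3` -/
noncomputable def v (n : ℕ) : ℕ := Set.ncard {π : Equiv.Perm (Fin n) | AvoidV π}

/-! ### the succession rule -/

/-- the operator attached to the succession rule -/
def T (F : ℕ → ℕ → ℕ) (h k : ℕ) : ℕ :=
  ∑ ρ ∈ Icc 1 (h + k), if ρ ≤ h then F ρ (k + 1) else F ρ (h + k - ρ + 1)

/-! ### sequences -/

section sequences

variable {n : ℕ}

/-- maximum -/
def mx (a : Fin n → ℕ) : ℕ := Finset.univ.sup a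

open Classical in
/-- largest entry that has a larger entry before it -/
noncomputable def zz (a : Fin n → ℕ) : ℕ :=
  (Finset.univ.filter (fun j => ∃ i < j, a j < a i)).sup a

/-- add an entry at the end -/
def snoc' (a : Fin n → ℕ) (x : ℕ) : Fin (n + 1) → ℕ := Fin.snoc (α := fun _ => ℕ) a x

lemma snoc_castSucc (a : Fin n → ℕ) (x : ℕ) (i : Fin n) : snoc' a x i.castSucc = a i := by
  unfold snoc'; rw [Fin.snoc_castSucc]

lemma snoc_last (a : Fin n → ℕ) (x : ℕ) : snoc' a x (Fin.last n) = x := by
  unfold snoc'; rw [Fin.snoc_last]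

lemma wasc_snoc_le (a : Fin n → ℕ) (x : ℕ) {i : ℕ} (hi : i ≤ n) :
    wasc (snoc' a x) i = wasc a i := by
  unfold wasc
  symm
  apply Finset.card_bij (fun j _ => j.castSucc)
  · intro j hj
    rw [mem_filter] at hj ⊢
    obtain ⟨-, j', h1, h2, h3⟩ := hj
    exact ⟨mem_univ _, j'.castSucc, by simpa using h1, by simpa using h2,
      by rw [snoc_castSucc, snoc_castSucc]; exact h3⟩
  · intro j _ j' _ h
    exact Fin.castSucc_injective _ h
  · intro j hj
    rw [mem_filter] at hj
    obtain ⟨-, j', h1, h2, h3⟩ := hj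
    have hj1 : j.val < n := by omega
    have hj2 : j'.val < n := by omega
    refine ⟨⟨j.val, hj1⟩, ?_, by ext; rfl⟩
    rw [mem_filter]
    refine ⟨mem_univ _, ⟨j'.val, hj2⟩, h1, h2, ?_⟩
    have e1 : j = (⟨j.val, hj1⟩ : Fin n).castSucc := by ext; rfl
    have e2 : j' = (⟨j'.val, hj2⟩ : Fin n).castSucc := by ext; rfl
    rw [e1, e2, snoc_castSucc, snoc_castSucc] at h3
    exact h3

lemma wasc_snoc (a : Fin (n + 1) → ℕ) (x : ℕ) :
    wasc (snoc' a x) (n + 2) = wasc a (n + 1) + if a (Fin.last n) ≤ x then 1 else 0 := by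
  have h1 := wasc_snoc_le a x (le_refl (n + 1))
  rw [← h1]
  unfold wasc
  by_cases hx : a (Fin.last n) ≤ x
  · rw [if_pos hx]
    have : (Finset.univ.filter fun j : Fin (n + 2) => ∃ j' : Fin (n + 2), j'.val = j.val + 1 ∧
        j'.val < n + 2 ∧ snoc' a x j ≤ snoc' a x j') =
        insert (Fin.last n).castSucc (Finset.univ.filter fun j : Fin (n + 2) =>
          ∃ j' : Fin (n + 2), j'.val = j.val + 1 ∧
          j'.val < n + 1 ∧ snoc' a x j ≤ snoc' a x j') := by
      ext j
      rw [mem_insert, mem_filter, mem_filter]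
      constructor
      · rintro ⟨-, j', h2, h3, h4⟩
        by_cases hj : j'.val < n + 1
        · right; exact ⟨mem_univ _, j', h2, hj, h4⟩
        · left; ext; simp; omega
      · rintro (rfl | ⟨-, j', h2, h3, h4⟩)
        · refine ⟨mem_univ _, Fin.last (n + 1), by simp, by simp, ?_⟩
          rw [snoc_castSucc, snoc_last]; exact hx
        · exact ⟨mem_univ _, j', h2, by omega, h4⟩
    rw [this, card_insert_of_notMem]
    rw [mem_filter]
    rintro ⟨-, j', h2, h3, -⟩
    simp at h2
    omega
  · rw [if_neg hx, add_zero]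
    congr 1
    ext j
    rw [mem_filter, mem_filter]
    constructor
    · rintro ⟨-, j', h2, h3, h4⟩
      refine ⟨mem_univ _, j', h2, ?_, h4⟩
      by_contra hcon
      have e1 : j = (Fin.last n).castSucc := by ext; simp; omega
      have e2 : j' = Fin.last (n + 1) := by ext; simp; omega
      rw [e1, e2, snoc_castSucc, snoc_last] at h4
      exact hx h4
    · rintro ⟨-, j', h2, h3, h4⟩
      exact ⟨mem_univ _, j', h2, by omega, h4⟩

lemma le_mx (a : Fin n → ℕ) (i : Fin n) : a i ≤ mx a := Finset.le_sup (mem_univ i)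

lemma mx_mem (a : Fin (n + 1) → ℕ) : ∃ i, a i = mx a := by
  obtain ⟨i, -, h⟩ := Finset.exists_mem_eq_sup (Finset.univ) ⟨0, mem_univ _⟩ a
  exact ⟨i, h.symm⟩

lemma mx_snoc (a : Fin (n + 1) → ℕ) (x : ℕ) : mx (snoc' a x) = max (mx a) x := by
  apply le_antisymm
  · apply Finset.sup_le
    intro i _
    rcases Fin.eq_castSucc_or_eq_last i with ⟨i, rfl⟩ | rfl
    · rw [snoc_castSucc]; exact le_max_of_le_left (le_mx a i)
    · rw [snoc_last]; exact le_max_right _ _
  · apply max_le
    · obtain ⟨i, hi⟩ := mx_mem a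
      rw [← hi, ← snoc_castSucc a x i]
      exact le_mx _ _
    · conv_lhs => rw [← snoc_last a x]
      exact le_mx _ _

lemma le_zz (a : Fin n → ℕ) {i j : Fin n} (h : i < j) (h' : a j < a i) : a j ≤ zz a := by
  classical
  exact Finset.le_sup (f := a) (mem_filter.mpr ⟨mem_univ j, i, h, h'⟩)

lemma zz_mem (a : Fin n → ℕ) (h : 0 < zz a) : ∃ i j : Fin n, i < j ∧ a j < a i ∧ a j = zz a := by
  classical
  by_cases hne : (Finset.univ.filter (fun j => ∃ i < j, a j < a i) : Finset (Fin n)).Nonempty
  · obtain ⟨j, hj, h1⟩ := Finset.exists_mem_eq_sup _ hne a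
    rw [mem_filter] at hj
    obtain ⟨-, i, hi, hi'⟩ := hj
    exact ⟨i, j, hi, hi', h1.symm⟩
  · rw [Finset.not_nonempty_iff_eq_empty] at hne
    have : zz a = 0 := by
      unfold zz
      rw [hne]; rfl
    omega

lemma zz_le_mx (a : Fin n → ℕ) : zz a ≤ mx a := by
  rcases Nat.eq_zero_or_pos (zz a) with h | h
  · omega
  · obtain ⟨i, j, -, -, h3⟩ := zz_mem a h
    rw [← h3]; exact le_mx a j

/-- an entry smaller than the maximum in last position -/
lemma zz_snoc_lt (a : Fin (n + 1) → ℕ) {x : ℕ} (hx : x < mx a) (hz : zz a ≤ x) :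
    zz (snoc' a x) = x := by
  classical
  apply le_antisymm
  · apply Finset.sup_le
    intro j hj
    rw [mem_filter] at hj
    obtain ⟨-, i, hi, hi'⟩ := hj
    rcases Fin.eq_castSucc_or_eq_last j with ⟨j, rfl⟩ | rfl
    · rcases Fin.eq_castSucc_or_eq_last i with ⟨i, rfl⟩ | rfl
      · rw [snoc_castSucc, snoc_castSucc] at hi'
        rw [snoc_castSucc]
        exact (le_zz a (by simpa using hi) hi').trans hz
      · exact absurd hi (not_lt.mpr (Fin.le_last _))
    · rw [snoc_last]
  · obtain ⟨i, hi⟩ := mx_mem a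
    have h1 : snoc' a x (Fin.last (n + 1)) < snoc' a x i.castSucc := by
      rw [snoc_last, snoc_castSucc, hi]; exact hx
    have := le_zz (snoc' a x) (Fin.castSucc_lt_last i) h1
    rwa [snoc_last] at this

lemma zz_snoc_ge (a : Fin (n + 1) → ℕ) {x : ℕ} (hx : mx a ≤ x) : zz (snoc' a x) = zz a := by
  classical
  apply le_antisymm
  · apply Finset.sup_le
    intro j hj
    rw [mem_filter] at hj
    obtain ⟨-, i, hi, hi'⟩ := hj
    rcases Fin.eq_castSucc_or_eq_last i with ⟨i, rfl⟩ | rfl
    swap
    · exact absurd hi (not_lt.mpr (Fin.le_last _))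
    rcases Fin.eq_castSucc_or_eq_last j with ⟨j, rfl⟩ | rfl
    · rw [snoc_castSucc, snoc_castSucc] at hi'
      rw [snoc_castSucc]
      exact le_zz a (by simpa using hi) hi'
    · rw [snoc_last, snoc_castSucc] at hi'
      have := le_mx a i
      omega
  · apply Finset.sup_le
    intro j hj
    rw [mem_filter] at hj
    obtain ⟨-, i, hi, hi'⟩ := hj
    rw [← snoc_castSucc a x j]
    apply le_zz (snoc' a x) (i := i.castSucc)
    · simpa using hi
    · rw [snoc_castSucc, snoc_castSucc]; exact hi'

lemma avoid_snoc (a : Fin (n + 1) → ℕ) (x : ℕ) :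
    Avoid210 (snoc' a x) ↔ Avoid210 a ∧ zz a ≤ x := by
  constructor
  · intro h
    constructor
    · rintro ⟨i, j, k, h1, h2, h3, h4⟩
      exact h ⟨i.castSucc, j.castSucc, k.castSucc, by simpa using h1, by simpa using h2,
        by rw [snoc_castSucc, snoc_castSucc]; exact h3,
        by rw [snoc_castSucc, snoc_castSucc]; exact h4⟩
    · by_contra hcon
      push Not at hcon
      obtain ⟨i, j, h1, h2, h3⟩ := zz_mem a (by omega)
      exact h ⟨i.castSucc, j.castSucc, Fin.last (n + 1), by simpa using h1,
        Fin.castSucc_lt_last _, by rw [snoc_castSucc, snoc_castSucc]; exact h2,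
        by rw [snoc_castSucc, snoc_last, h3]; exact hcon⟩
  · rintro ⟨ha, hx⟩ ⟨i, j, k, h1, h2, h3, h4⟩
    rcases Fin.eq_castSucc_or_eq_last i with ⟨i, rfl⟩ | rfl
    swap
    · exact absurd h1 (not_lt.mpr (Fin.le_last _))
    rcases Fin.eq_castSucc_or_eq_last j with ⟨j, rfl⟩ | rfl
    swap
    · exact absurd h2 (not_lt.mpr (Fin.le_last _))
    rw [snoc_castSucc, snoc_castSucc] at h3
    rw [snoc_castSucc] at h4
    rcases Fin.eq_castSucc_or_eq_last k with ⟨k, rfl⟩ | rfl
    · rw [snoc_castSucc] at h4
      exact ha ⟨i, j, k, by simpa using h1, by simpa using h2, h3, h4⟩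
    · rw [snoc_last] at h4
      have := le_zz a (show i < j by simpa using h1) h3
      omega

lemma was_snoc (a : Fin (n + 1) → ℕ) (x : ℕ) :
    IsWAS (snoc' a x) ↔ IsWAS a ∧ x ≤ 1 + wasc a (n + 1) := by
  constructor
  · rintro ⟨h0, h⟩
    refine ⟨⟨fun i hi => ?_, fun i hi => ?_⟩, ?_⟩
    · have := h0 i.castSucc (by simpa using hi)
      rwa [snoc_castSucc] at this
    · have := h i.castSucc (by simpa using hi)
      rw [snoc_castSucc, wasc_snoc_le] at this
      · exact this
      · simp
    · have := h (Fin.last (n + 1)) (by simp)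
      rw [snoc_last, wasc_snoc_le _ _ (by simp)] at this
      simpa using this
  · rintro ⟨⟨h0, h⟩, hx⟩
    refine ⟨fun i hi => ?_, fun i hi => ?_⟩
    · rcases Fin.eq_castSucc_or_eq_last i with ⟨i, rfl⟩ | rfl
      · rw [snoc_castSucc]; exact h0 i (by simpa using hi)
      · simp at hi
    · rcases Fin.eq_castSucc_or_eq_last i with ⟨i, rfl⟩ | rfl
      · rw [snoc_castSucc, wasc_snoc_le _ _ (by simp)]
        exact h i (by simpa using hi)
      · rw [snoc_last, wasc_snoc_le _ _ (by simp)]
        simpa using hx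

/-- the admissible sequences of length `n + 1` -/
noncomputable def WF : (n : ℕ) → Finset (Fin (n + 1) → ℕ)
  | 0 => {fun _ => 0}
  | n + 1 => (WF n).biUnion fun a => (Icc (zz a) (1 + wasc a (n + 1))).image (snoc' a)

lemma snoc_eta (b : Fin (n + 1) → ℕ) : snoc' (fun i => b i.castSucc) (b (Fin.last n)) = b := by
  funext i
  rcases Fin.eq_castSucc_or_eq_last i with ⟨i, rfl⟩ | rfl
  · rw [snoc_castSucc]
  · rw [snoc_last]

lemma mem_WF : ∀ (n : ℕ) (a : Fin (n + 1) → ℕ), a ∈ WF n ↔ IsWAS a ∧ Avoid210 a := by
  intro n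
  induction n with
  | zero =>
    intro a
    rw [WF, mem_singleton]
    constructor
    · rintro rfl
      refine ⟨⟨fun _ _ => rfl, fun i hi => ?_⟩, ?_⟩
      · exact Nat.zero_le _
      · rintro ⟨i, j, k, -, -, h, -⟩; exact absurd h (lt_irrefl _)
    · rintro ⟨⟨h, -⟩, -⟩
      funext i
      exact h i (by omega)
  | succ n ih =>
    intro b
    rw [WF, mem_biUnion]
    constructor
    · rintro ⟨a, ha, hb⟩
      rw [mem_image] at hb
      obtain ⟨x, hx, rfl⟩ := hb
      rw [mem_Icc] at hx
      have := (ih a).mp ha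
      rw [was_snoc, avoid_snoc]
      exact ⟨⟨this.1, hx.2⟩, this.2, hx.1⟩
    · intro hb
      rw [← snoc_eta b, was_snoc, avoid_snoc] at hb
      refine ⟨fun i => b i.castSucc, (ih _).mpr ⟨hb.1.1, hb.2.1⟩, ?_⟩
      rw [mem_image]
      exact ⟨b (Fin.last _), mem_Icc.mpr ⟨hb.2.2, hb.1.2⟩, snoc_eta b⟩

/-- the labels -/
noncomputable def lh (a : Fin (n + 1) → ℕ) : ℕ :=
  if a (Fin.last n) = mx a then mx a - zz a + 1 else mx a - zz a

noncomputable def lk (a : Fin (n + 1) → ℕ) : ℕ :=
  if a (Fin.last n) = mx a then wasc a (n + 1) + 1 - mx a else wasc a (n + 1) + 2 - mx a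

/-- invariants of admissible sequences -/
lemma inv : ∀ (n : ℕ) (a : Fin (n + 1) → ℕ), a ∈ WF n →
    mx a ≤ wasc a (n + 1) ∧ (a (Fin.last n) ≠ mx a → a (Fin.last n) = zz a ∧ zz a < mx a) := by
  intro n
  induction n with
  | zero =>
    intro a ha
    rw [WF, mem_singleton] at ha
    subst ha
    have h0 : mx (fun _ : Fin (0 + 1) => 0) = 0 := by
      unfold mx; simp
    rw [h0]
    exact ⟨Nat.zero_le _, fun h => absurd rfl h⟩
  | succ n ih =>
    intro b hb
    rw [WF, mem_biUnion] at hb
    obtain ⟨a, ha, hb⟩ := hb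
    rw [mem_image] at hb
    obtain ⟨x, hx, rfl⟩ := hb
    rw [mem_Icc] at hx
    obtain ⟨h1, h2⟩ := ih a ha
    rw [mx_snoc, wasc_snoc, snoc_last]
    have h3 := le_mx a (Fin.last n)
    rcases Nat.lt_or_ge x (mx a) with h | h
    · rw [max_eq_left h.le]
      refine ⟨by omega, fun _ => ?_⟩
      rw [zz_snoc_lt a h hx.1]
      exact ⟨rfl, h⟩
    · rw [max_eq_right h, if_pos (h3.trans h)]
      refine ⟨by omega, fun h' => absurd rfl h'⟩

lemma seq_step (F : ℕ → ℕ → ℕ) (n : ℕ) :
    ∑ b ∈ WF (n + 1), F (lh b) (lk b) = ∑ a ∈ WF n, T F (lh a) (lk a) := by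
  rw [WF, Finset.sum_biUnion]
  · apply Finset.sum_congr rfl
    intro a ha
    rw [Finset.sum_image (by
      intro x _ y _ h
      have := congrFun h (Fin.last (n + 1))
      rwa [snoc_last, snoc_last] at this)]
    obtain ⟨h1, h2⟩ := inv n a ha
    have h3 := le_mx a (Fin.last n)
    have h4 := zz_le_mx a
    unfold T
    by_cases hlast : a (Fin.last n) = mx a
    · -- last entry maximal
      have e1 : lh a = mx a - zz a + 1 := by unfold lh; rw [if_pos hlast]
      have e2 : lk a = wasc a (n + 1) + 1 - mx a := by unfold lk; rw [if_pos hlast]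
      rw [e1, e2]
      apply Finset.sum_bij (fun x _ => if x < mx a then mx a - x else x - zz a + 1)
      · intro x hx
        rw [mem_Icc] at hx ⊢
        split_ifs <;> omega
      · intro x hx y hy h
        rw [mem_Icc] at hx hy
        split_ifs at h <;> omega
      · intro ρ hρ
        rw [mem_Icc] at hρ
        by_cases hc : ρ ≤ mx a - zz a
        · refine ⟨mx a - ρ, mem_Icc.mpr ⟨by omega, by omega⟩, ?_⟩
          rw [if_pos (by omega)]; omega
        · refine ⟨ρ + zz a - 1, mem_Icc.mpr ⟨by omega, by omega⟩, ?_⟩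
          rw [if_neg (by omega)]; omega
      · intro x hx
        rw [mem_Icc] at hx
        rcases Nat.lt_or_ge x (mx a) with h | h
        · have c1 : lh (snoc' a x) = mx a - x := by
            unfold lh
            rw [snoc_last, mx_snoc, max_eq_left h.le, if_neg (by omega), zz_snoc_lt a h hx.1]
          have c2 : lk (snoc' a x) = wasc a (n + 1) + 2 - mx a := by
            unfold lk
            rw [snoc_last, mx_snoc, max_eq_left h.le, if_neg (by omega), wasc_snoc,
              if_neg (by omega), add_zero]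
          rw [c1, c2, if_pos h, if_pos (by omega)]
          congr 1
          omega
        · have c1 : lh (snoc' a x) = x - zz a + 1 := by
            unfold lh
            rw [snoc_last, mx_snoc, max_eq_right h, if_pos rfl, zz_snoc_ge a h]
          have c2 : lk (snoc' a x) = wasc a (n + 1) + 2 - x := by
            unfold lk
            rw [snoc_last, mx_snoc, max_eq_right h, if_pos rfl, wasc_snoc, if_pos (by omega)]
          rw [c1, c2, if_neg (not_lt.mpr h)]
          split_ifs with hc
          · congr 1; omega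
          · congr 1; omega
    · -- last entry not maximal
      obtain ⟨h5, h6⟩ := h2 hlast
      have e1 : lh a = mx a - zz a := by unfold lh; rw [if_neg hlast]
      have e2 : lk a = wasc a (n + 1) + 2 - mx a := by unfold lk; rw [if_neg hlast]
      rw [e1, e2]
      apply Finset.sum_bij (fun x _ => if x < mx a then mx a - x else x - zz a + 1)
      · intro x hx
        rw [mem_Icc] at hx ⊢
        split_ifs <;> omega
      · intro x hx y hy h
        rw [mem_Icc] at hx hy
        split_ifs at h <;> omega
      · intro ρ hρ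
        rw [mem_Icc] at hρ
        by_cases hc : ρ ≤ mx a - zz a
        · refine ⟨mx a - ρ, mem_Icc.mpr ⟨by omega, by omega⟩, ?_⟩
          rw [if_pos (by omega)]; omega
        · refine ⟨ρ + zz a - 1, mem_Icc.mpr ⟨by omega, by omega⟩, ?_⟩
          rw [if_neg (by omega)]; omega
      · intro x hx
        rw [mem_Icc] at hx
        rcases Nat.lt_or_ge x (mx a) with h | h
        · have c1 : lh (snoc' a x) = mx a - x := by
            unfold lh
            rw [snoc_last, mx_snoc, max_eq_left h.le, if_neg (by omega), zz_snoc_lt a h hx.1]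
          have c2 : lk (snoc' a x) = wasc a (n + 1) + 3 - mx a := by
            unfold lk
            rw [snoc_last, mx_snoc, max_eq_left h.le, if_neg (by omega), wasc_snoc,
              if_pos (by omega)]
          rw [c1, c2, if_pos h, if_pos (by omega)]
          congr 1
          omega
        · have c1 : lh (snoc' a x) = x - zz a + 1 := by
            unfold lh
            rw [snoc_last, mx_snoc, max_eq_right h, if_pos rfl, zz_snoc_ge a h]
          have c2 : lk (snoc' a x) = wasc a (n + 1) + 2 - x := by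
            unfold lk
            rw [snoc_last, mx_snoc, max_eq_right h, if_pos rfl, wasc_snoc, if_pos (by omega)]
          rw [c1, c2, if_neg (not_lt.mpr h), if_neg (by omega)]
          congr 1
          omega
  · intro a _ b _ hab
    rw [Function.onFun, Finset.disjoint_left]
    intro c hc hc'
    rw [mem_image] at hc hc'
    obtain ⟨x, -, rfl⟩ := hc
    obtain ⟨y, -, h⟩ := hc'
    apply hab
    funext i
    have := congrFun h i.castSucc
    rw [snoc_castSucc, snoc_castSucc] at this
    exact this.symm

end sequences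

/-! ### permutations -/

section perms

variable {n : ℕ}

/-- a final entry with value `c` (shifting the values `≥ c` up) would complete a `2-41-3` -/
def Forb (f : Fin n → Fin n) (c : ℕ) : Prop :=
  ∃ i j j' : Fin n, i < j ∧ j'.val = j.val + 1 ∧ f j' < f i ∧ (f i).val < c ∧ c ≤ (f j).val

/-- append the value `c` -/
def child (f : Fin n → Fin n) (c : Fin (n + 1)) : Fin (n + 1) → Fin (n + 1) :=
  Fin.snoc (α := fun _ => Fin (n + 1)) (fun i => c.succAbove (f i)) c

lemma child_castSucc (f : Fin n → Fin n) (c : Fin (n + 1)) (i : Fin n) :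
    child f c i.castSucc = c.succAbove (f i) := by
  unfold child; rw [Fin.snoc_castSucc]

lemma child_last (f : Fin n → Fin n) (c : Fin (n + 1)) : child f c (Fin.last n) = c := by
  unfold child; rw [Fin.snoc_last]

lemma sA_val (c : Fin (n + 1)) (x : Fin n) :
    (c.succAbove x).val = if x.val < c.val then x.val else x.val + 1 := by
  unfold Fin.succAbove
  split_ifs with h1 h2 h2
  · rfl
  · exact absurd h1 h2
  · exact absurd h2 h1
  · rfl

lemma sA_lt (c : Fin (n + 1)) (x y : Fin n) : c.succAbove x < c.succAbove y ↔ x < y := by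
  rw [Fin.lt_def, Fin.lt_def, sA_val, sA_val]
  split_ifs <;> omega

lemma avoid_child (f : Fin n → Fin n) (c : Fin (n + 1)) :
    AvoidV (child f c) ↔ AvoidV f ∧ ¬ Forb f c := by
  constructor
  · intro h
    constructor
    · rintro ⟨i, j, j', k, h1, h2, h3, h4, h5, h6⟩
      refine h ⟨i.castSucc, j.castSucc, j'.castSucc, k.castSucc, by simpa using h1,
        by simpa using h2, by simpa using h3, ?_, ?_, ?_⟩
      · rw [child_castSucc, child_castSucc, sA_lt]; exact h4
      · rw [child_castSucc, child_castSucc, sA_lt]; exact h5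
      · rw [child_castSucc, child_castSucc, sA_lt]; exact h6
    · rintro ⟨i, j, j', h1, h2, h3, h4, h5⟩
      refine h ⟨i.castSucc, j.castSucc, j'.castSucc, Fin.last n, by simpa using h1,
        by simpa using h2, Fin.castSucc_lt_last _, ?_, ?_, ?_⟩
      · rw [child_castSucc, child_castSucc, sA_lt]; exact h3
      · rw [child_castSucc, child_last, Fin.lt_def, sA_val, if_pos h4]; exact h4
      · rw [child_castSucc, child_last, Fin.lt_def, sA_val, if_neg (by omega)]; omega
  · rintro ⟨h, hF⟩ ⟨i, j, j', k, h1, h2, h3, h4, h5, h6⟩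
    rcases Fin.eq_castSucc_or_eq_last j' with ⟨j', rfl⟩ | rfl
    swap
    · exact absurd h3 (not_lt.mpr (Fin.le_last _))
    rcases Fin.eq_castSucc_or_eq_last j with ⟨j, rfl⟩ | rfl
    swap
    · simp at h2; omega
    rcases Fin.eq_castSucc_or_eq_last i with ⟨i, rfl⟩ | rfl
    swap
    · exact absurd h1 (not_lt.mpr (Fin.le_last _))
    rw [child_castSucc, child_castSucc, sA_lt] at h4
    rcases Fin.eq_castSucc_or_eq_last k with ⟨k, rfl⟩ | rfl
    · rw [child_castSucc, child_castSucc, sA_lt] at h5 h6
      exact h ⟨i, j, j', k, by simpa using h1, by simpa using h2, by simpa using h3, h4, h5, h6⟩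
    · rw [child_castSucc, child_last, Fin.lt_def, sA_val] at h5 h6
      refine hF ⟨i, j, j', by simpa using h1, by simpa using h2, h4, ?_, ?_⟩
      · split_ifs at h5 with h7
        · exact h7
        · omega
      · split_ifs at h6 with h7 <;> omega

open Classical in
/-- admissible final values -/
noncomputable def Act (f : Fin n → Fin n) : Finset ℕ := (range (n + 1)).filter fun c => ¬ Forb f c

lemma mem_Act {f : Fin n → Fin n} {c : ℕ} : c ∈ Act f ↔ c ≤ n ∧ ¬ Forb f c := by
  classical
  unfold Act
  rw [mem_filter, mem_range, Nat.lt_succ_iff]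

/-- forbidden values after appending `c` -/
lemma forb_child {f : Fin (n + 1) → Fin (n + 1)} (hf : Function.Injective f) (c : Fin (n + 2))
    (c' : ℕ) : Forb (child f c) c' ↔ Forb f (if c' ≤ c.val then c' else c' - 1) ∨
      (c.val ≤ (f (Fin.last n)).val ∧ c.val + 2 ≤ c' ∧ c' ≤ (f (Fin.last n)).val + 1) := by
  have hsurj : Function.Surjective f := Finite.injective_iff_surjective.mp hf
  constructor
  · rintro ⟨i, j, j', h1, h2, h3, h4, h5⟩
    rcases Fin.eq_castSucc_or_eq_last j with ⟨j, rfl⟩ | rfl
    swap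
    · simp at h2
      have := j'.isLt
      omega
    rcases Fin.eq_castSucc_or_eq_last i with ⟨i, rfl⟩ | rfl
    swap
    · exact absurd h1 (not_lt.mpr (Fin.le_last _))
    rw [child_castSucc, sA_val] at h4 h5
    rcases Fin.eq_castSucc_or_eq_last j' with ⟨j', rfl⟩ | rfl
    · left
      rw [child_castSucc, child_castSucc, sA_lt] at h3
      refine ⟨i, j, j', by simpa using h1, by simpa using h2, h3, ?_, ?_⟩
      · split_ifs at h4 ⊢ <;> omega
      · split_ifs at h5 ⊢ <;> omega
    · right
      rw [child_castSucc, child_last, Fin.lt_def, sA_val] at h3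
      have hj : j = Fin.last n := by
        ext; simp at h2; simp; omega
      subst hj
      split_ifs at h3 h4 h5 <;> omega
  · rintro (⟨i, j, j', h1, h2, h3, h4, h5⟩ | ⟨h1, h2, h3⟩)
    · refine ⟨i.castSucc, j.castSucc, j'.castSucc, by simpa using h1, by simpa using h2, ?_, ?_, ?_⟩
      · rw [child_castSucc, child_castSucc, sA_lt]; exact h3
      · rw [child_castSucc, sA_val]
        split_ifs at h4 ⊢ <;> omega
      · rw [child_castSucc, sA_val]
        split_ifs at h5 ⊢ <;> omega
    · have hlast := (f (Fin.last n)).isLt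
      obtain ⟨i, hi⟩ := hsurj ⟨c.val, by omega⟩
      have hi' : (f i).val = c.val := by rw [hi]
      have hne : i ≠ Fin.last n := by
        intro h
        rw [h] at hi'
        omega
      have hlt : i < Fin.last n := lt_of_le_of_ne (Fin.le_last _) hne
      refine ⟨i.castSucc, (Fin.last n).castSucc, Fin.last (n + 1), by simpa using hlt, by simp,
        ?_, ?_, ?_⟩
      · rw [child_castSucc, child_last, Fin.lt_def, sA_val, if_neg (by omega)]; omega
      · rw [child_castSucc, sA_val, if_neg (by omega)]; omega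
      · rw [child_castSucc, sA_val, if_neg (by omega)]; omega

open Classical in
/-- the labels -/
noncomputable def ph (f : Fin (n + 1) → Fin (n + 1)) : ℕ :=
  #{c ∈ Act f | c ≤ (f (Fin.last n)).val}

open Classical in
noncomputable def pk (f : Fin (n + 1) → Fin (n + 1)) : ℕ :=
  #{c ∈ Act f | (f (Fin.last n)).val < c}

lemma ph_add_pk (f : Fin (n + 1) → Fin (n + 1)) : ph f + pk f = #(Act f) := by
  classical
  unfold ph pk
  have := Finset.card_filter_add_card_filter_not (s := Act f) (fun c => c ≤ (f (Fin.last n)).val)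
  simpa only [not_le] using this

lemma ph_child {f : Fin (n + 1) → Fin (n + 1)} (hf : Function.Injective f) (c : Fin (n + 2)) :
    ph (child f c) = #{c' ∈ Act f | c' ≤ c.val} := by
  classical
  unfold ph
  rw [child_last]
  congr 1
  ext c'
  rw [mem_filter, mem_filter, mem_Act, mem_Act, forb_child hf c c']
  have := c.isLt
  constructor
  · rintro ⟨⟨h1, h2⟩, h3⟩
    rw [if_pos h3] at h2
    exact ⟨⟨by omega, fun h => h2 (Or.inl h)⟩, h3⟩
  · rintro ⟨⟨h1, h2⟩, h3⟩
    rw [if_pos h3]
    refine ⟨⟨by omega, ?_⟩, h3⟩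
    rintro (h | h)
    · exact h2 h
    · omega

lemma pk_child_le {f : Fin (n + 1) → Fin (n + 1)} (hf : Function.Injective f) (c : Fin (n + 2))
    (hc : c.val ∈ Act f) (hle : c.val ≤ (f (Fin.last n)).val) : pk (child f c) = pk f + 1 := by
  classical
  unfold pk
  rw [child_last]
  have hlast := (f (Fin.last n)).isLt
  rw [mem_Act] at hc
  have e : {c' ∈ Act (child f c) | c.val < c'} =
      insert (c.val + 1) ({c' ∈ Act f | (f (Fin.last n)).val < c'}.image (· + 1)) := by
    ext c'
    rw [mem_insert, mem_image, mem_filter, mem_Act, forb_child hf c c']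
    constructor
    · rintro ⟨⟨h1, h2⟩, h3⟩
      rw [if_neg (by omega)] at h2
      push Not at h2
      by_cases h4 : c' = c.val + 1
      · left; exact h4
      · right
        refine ⟨c' - 1, ?_, by omega⟩
        rw [mem_filter, mem_Act]
        have h5 := h2.2 hle (by omega)
        exact ⟨⟨by omega, h2.1⟩, by omega⟩
    · rintro (rfl | ⟨x, hx, rfl⟩)
      · refine ⟨⟨by omega, ?_⟩, by omega⟩
        rw [if_neg (by omega), Nat.add_sub_cancel]
        rintro (h | h)
        · exact hc.2 h
        · omega
      · rw [mem_filter, mem_Act] at hx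
        refine ⟨⟨by omega, ?_⟩, by omega⟩
        rw [if_neg (by omega), Nat.add_sub_cancel]
        rintro (h | h)
        · exact hx.1.2 h
        · omega
  rw [e, card_insert_of_notMem, card_image_of_injective]
  · intro x y h; simp only at h; omega
  · rw [mem_image]
    rintro ⟨x, hx, h⟩
    rw [mem_filter] at hx
    omega

lemma pk_child_gt {f : Fin (n + 1) → Fin (n + 1)} (hf : Function.Injective f) (c : Fin (n + 2))
    (hlt : (f (Fin.last n)).val < c.val) :
    pk (child f c) = #{c' ∈ Act f | c.val ≤ c'} := by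
  classical
  unfold pk
  rw [child_last]
  have e : {c' ∈ Act (child f c) | c.val < c'} =
      ({c' ∈ Act f | c.val ≤ c'}.image (· + 1)) := by
    ext c'
    rw [mem_image, mem_filter, mem_Act, forb_child hf c c']
    constructor
    · rintro ⟨⟨h1, h2⟩, h3⟩
      rw [if_neg (by omega)] at h2
      push Not at h2
      refine ⟨c' - 1, ?_, by omega⟩
      rw [mem_filter, mem_Act]
      exact ⟨⟨by omega, h2.1⟩, by omega⟩
    · rintro ⟨x, hx, rfl⟩
      rw [mem_filter, mem_Act] at hx
      refine ⟨⟨by omega, ?_⟩, by omega⟩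
      rw [if_neg (by omega), Nat.add_sub_cancel]
      rintro (h | h)
      · exact hx.1.2 h
      · omega
  rw [e, card_image_of_injective]
  intro x y h; simp only at h; omega

lemma rank_sum (G : ℕ → ℕ) (A : Finset ℕ) :
    ∑ c ∈ A, G #{c' ∈ A | c' ≤ c} = ∑ ρ ∈ Icc 1 #A, G ρ := by
  classical
  induction A using Finset.induction_on_max with
  | empty => simp
  | insert a s ha ih =>
    have hnot : a ∉ s := fun h => lt_irrefl _ (ha a h)
    rw [Finset.sum_insert hnot, Finset.card_insert_of_notMem hnot]
    have h1 : ∀ c ∈ s, #{c' ∈ insert a s | c' ≤ c} = #{c' ∈ s | c' ≤ c} := by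
      intro c hc
      congr 1
      rw [Finset.filter_insert, if_neg (by have := ha c hc; omega)]
    have h2 : #{c' ∈ insert a s | c' ≤ a} = #s + 1 := by
      rw [Finset.filter_true_of_mem, Finset.card_insert_of_notMem hnot]
      intro x hx
      rcases Finset.mem_insert.mp hx with rfl | hx
      · exact le_refl _
      · exact (ha x hx).le
    rw [h2, Finset.sum_congr rfl (fun c hc => by rw [h1 c hc]), ih,
      ← Finset.insert_Icc_right_eq_Icc_add_one (by omega), Finset.sum_insert (by simp)]

open Classical in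
/-- the avoiding permutations of length `n + 1`, as injective functions -/
noncomputable def PF : (n : ℕ) → Finset (Fin (n + 1) → Fin (n + 1))
  | 0 => {fun _ => 0}
  | n + 1 => (PF n).biUnion fun f =>
      ((Finset.univ : Finset (Fin (n + 2))).filter fun c => ¬ Forb f c.val).image (child f)

lemma child_injective {f : Fin n → Fin n} (hf : Function.Injective f) (c : Fin (n + 1)) :
    Function.Injective (child f c) := by
  intro i j h
  rcases Fin.eq_castSucc_or_eq_last i with ⟨i, rfl⟩ | rfl
  · rcases Fin.eq_castSucc_or_eq_last j with ⟨j, rfl⟩ | rfl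
    · rw [child_castSucc, child_castSucc] at h
      rw [hf (Fin.succAbove_right_injective h)]
    · rw [child_castSucc, child_last] at h
      exact absurd h (Fin.succAbove_ne _ _)
  · rcases Fin.eq_castSucc_or_eq_last j with ⟨j, rfl⟩ | rfl
    · rw [child_castSucc, child_last] at h
      exact absurd h.symm (Fin.succAbove_ne _ _)
    · rfl

lemma child_inj {f g : Fin n → Fin n} {c d : Fin (n + 1)} (h : child f c = child g d) :
    f = g ∧ c = d := by
  have h1 := congrFun h (Fin.last n)
  rw [child_last, child_last] at h1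
  subst h1
  refine ⟨funext fun i => ?_, rfl⟩
  have h2 := congrFun h i.castSucc
  rw [child_castSucc, child_castSucc] at h2
  exact Fin.succAbove_right_injective h2

lemma exists_child {g : Fin (n + 1) → Fin (n + 1)} (hg : Function.Injective g) :
    ∃ f : Fin n → Fin n, Function.Injective f ∧ g = child f (g (Fin.last n)) := by
  have h1 : ∀ i : Fin n, ∃ y, (g (Fin.last n)).succAbove y = g i.castSucc := by
    intro i
    apply Fin.exists_succAbove_eq
    intro h
    exact absurd (hg h) (Fin.castSucc_lt_last i).ne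
  choose f hf using h1
  refine ⟨f, ?_, ?_⟩
  · intro i j h
    have h2 := hf i
    rw [h, hf j] at h2
    exact Fin.castSucc_injective _ (hg h2.symm)
  · funext i
    rcases Fin.eq_castSucc_or_eq_last i with ⟨i, rfl⟩ | rfl
    · rw [child_castSucc, hf]
    · rw [child_last]

lemma mem_PF : ∀ (n : ℕ) (f : Fin (n + 1) → Fin (n + 1)),
    f ∈ PF n ↔ Function.Injective f ∧ AvoidV f := by
  classical
  intro n
  induction n with
  | zero =>
    intro f
    rw [PF, mem_singleton]
    constructor
    · rintro rfl
      refine ⟨fun i j _ => Fin.ext (by omega), ?_⟩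
      rintro ⟨i, j, j', k, h, -⟩
      rw [Fin.lt_def] at h
      omega
    · intro _
      funext i
      exact Fin.ext (by omega)
  | succ n ih =>
    intro g
    rw [PF, mem_biUnion]
    constructor
    · rintro ⟨f, hf, hg⟩
      rw [mem_image] at hg
      obtain ⟨c, hc, rfl⟩ := hg
      rw [mem_filter] at hc
      have := (ih f).mp hf
      exact ⟨child_injective this.1 c, (avoid_child f c).mpr ⟨this.2, hc.2⟩⟩
    · rintro ⟨hg, hav⟩
      obtain ⟨f, hf, hgf⟩ := exists_child hg
      rw [hgf, avoid_child] at hav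
      refine ⟨f, (ih f).mpr ⟨hf, hav.1⟩, ?_⟩
      rw [mem_image]
      exact ⟨g (Fin.last _), mem_filter.mpr ⟨mem_univ _, hav.2⟩, hgf.symm⟩

lemma perm_step (F : ℕ → ℕ → ℕ) (n : ℕ) :
    ∑ g ∈ PF (n + 1), F (ph g) (pk g) = ∑ f ∈ PF n, T F (ph f) (pk f) := by
  classical
  rw [PF, Finset.sum_biUnion]
  · apply Finset.sum_congr rfl
    intro f hf
    have hfi := ((mem_PF n f).mp hf).1
    rw [Finset.sum_image (fun x _ y _ h => (child_inj h).2)]
    unfold T
    rw [ph_add_pk, ← rank_sum (fun ρ => if ρ ≤ ph f then F ρ (pk f + 1) else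
      F ρ (#(Act f) - ρ + 1)) (Act f)]
    apply Finset.sum_bij (fun c _ => c.val)
    · intro c hc
      rw [mem_filter] at hc
      rw [mem_Act]
      exact ⟨by have := c.isLt; omega, hc.2⟩
    · intro c _ d _ h
      exact Fin.ext h
    · intro c hc
      rw [mem_Act] at hc
      exact ⟨⟨c, by omega⟩, mem_filter.mpr ⟨mem_univ _, hc.2⟩, rfl⟩
    · intro c hc
      rw [mem_filter] at hc
      have hcA : c.val ∈ Act f := mem_Act.mpr ⟨by have := c.isLt; omega, hc.2⟩
      rw [ph_child hfi c]
      by_cases hle : c.val ≤ (f (Fin.last n)).val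
      · have h1 : #{c' ∈ Act f | c' ≤ c.val} ≤ ph f := by
          unfold ph
          apply Finset.card_le_card
          intro x hx
          rw [mem_filter] at hx ⊢
          exact ⟨hx.1, by omega⟩
        rw [if_pos h1, pk_child_le hfi c hcA hle]
      · push Not at hle
        have h1 : ph f < #{c' ∈ Act f | c' ≤ c.val} := by
          unfold ph
          apply Finset.card_lt_card
          rw [Finset.ssubset_iff_of_subset]
          · exact ⟨c.val, mem_filter.mpr ⟨hcA, le_refl _⟩, fun h => by
              rw [mem_filter] at h; omega⟩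
          · intro x hx
            rw [mem_filter] at hx ⊢
            exact ⟨hx.1, by omega⟩
        rw [if_neg (by omega), pk_child_gt hfi c hle]
        congr 1
        have h2 := Finset.card_filter_add_card_filter_not (s := Act f) (fun x => x ≤ c.val)
        have h3 : {c' ∈ Act f | c.val ≤ c'} = insert c.val {c' ∈ Act f | ¬ c' ≤ c.val} := by
          ext x
          rw [mem_insert, mem_filter, mem_filter]
          constructor
          · rintro ⟨h4, h5⟩
            by_cases h6 : x = c.val
            · left; exact h6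
            · right; exact ⟨h4, by omega⟩
          · rintro (rfl | ⟨h4, h5⟩)
            · exact ⟨hcA, le_refl _⟩
            · exact ⟨h4, by omega⟩
        rw [h3, card_insert_of_notMem]
        · omega
        · rw [mem_filter]; rintro ⟨-, h⟩; exact h (le_refl _)
  · intro f _ g _ hfg
    rw [Function.onFun, Finset.disjoint_left]
    intro c hc hc'
    rw [mem_image] at hc hc'
    obtain ⟨x, -, rfl⟩ := hc
    obtain ⟨y, -, h⟩ := hc'
    exact hfg (child_inj h).1.symm

end perms

/-! ### conclusion -/

lemma seq_iter (n : ℕ) : ∀ F : ℕ → ℕ → ℕ, ∑ b ∈ WF n, F (lh b) (lk b) = (T^[n] F) 1 1 := by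
  induction n with
  | zero =>
    intro F
    rw [WF, sum_singleton, Function.iterate_zero_apply]
    have h0 : mx (fun _ : Fin (0 + 1) => 0) = 0 := by unfold mx; simp
    have h1 : lh (fun _ : Fin (0 + 1) => 0) = 1 := by
      unfold lh
      rw [h0, if_pos rfl, Nat.zero_sub]
    have h2 : wasc (fun _ : Fin (0 + 1) => 0) (0 + 1) = 0 := by
      unfold wasc
      rw [Finset.card_eq_zero]
      apply Finset.filter_false_of_mem
      rintro j - ⟨j', h, -⟩
      omega
    have h3 : lk (fun _ : Fin (0 + 1) => 0) = 1 := by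
      unfold lk
      rw [h0, h2, if_pos rfl]
    rw [h1, h3]
  | succ n ih =>
    intro F
    rw [seq_step, ih, Function.iterate_succ_apply]

lemma perm_iter (n : ℕ) : ∀ F : ℕ → ℕ → ℕ, ∑ f ∈ PF n, F (ph f) (pk f) = (T^[n] F) 1 1 := by
  induction n with
  | zero =>
    classical
    intro F
    rw [PF, sum_singleton, Function.iterate_zero_apply]
    have h0 : Act (fun _ : Fin (0 + 1) => (0 : Fin (0 + 1))) = {0, 1} := by
      ext c
      rw [mem_Act]
      constructor
      · rintro ⟨h, -⟩
        have : c = 0 ∨ c = 1 := by omega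
        simpa using this
      · intro h
        have h' : c = 0 ∨ c = 1 := by simpa using h
        refine ⟨by omega, ?_⟩
        rintro ⟨i, j, j', -, h2, -⟩
        omega
    have h1 : ph (fun _ : Fin (0 + 1) => (0 : Fin (0 + 1))) = 1 := by
      unfold ph
      rw [h0]; rfl
    have h2 : pk (fun _ : Fin (0 + 1) => (0 : Fin (0 + 1))) = 1 := by
      unfold pk
      rw [h0]; rfl
    rw [h1, h2]
  | succ n ih =>
    intro F
    rw [perm_step, ih, Function.iterate_succ_apply]

/-- Q1, affirmative: the number of weak ascent sequences of length `n` avoiding `210` equals the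
number of permutations of length `n` avoiding the vincular pattern `2-41-3`, for all `n ≥ 1`. -/
theorem result (n : ℕ) (hn : 1 ≤ n) : w210 n = v n := by
  obtain ⟨n, rfl⟩ : ∃ m, n = m + 1 := ⟨n - 1, by omega⟩
  have h1 : w210 (n + 1) = #(WF n) := by
    unfold w210
    rw [← Set.ncard_coe_finset]
    congr 1
    ext a
    rw [Finset.mem_coe, mem_WF]
    rfl
  have h2 : v (n + 1) = #(PF n) := by
    unfold v
    rw [← Set.ncard_coe_finset]
    rw [← Set.ncard_image_of_injective {π : Equiv.Perm (Fin (n + 1)) | AvoidV π}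
      (f := fun π : Equiv.Perm (Fin (n + 1)) => (π : Fin (n + 1) → Fin (n + 1)))
      DFunLike.coe_injective]
    congr 1
    ext f
    rw [Finset.mem_coe, mem_PF]
    constructor
    · rintro ⟨π, hπ, rfl⟩
      exact ⟨π.injective, hπ⟩
    · rintro ⟨hf, hav⟩
      exact ⟨Equiv.ofBijective f ⟨hf, Finite.injective_iff_surjective.mp hf⟩, hav, rfl⟩
  rw [h1, h2]
  have h3 := seq_iter n (fun _ _ => 1)
  have h4 := perm_iter n (fun _ _ => 1)
  rw [← h4] at h3
  simpa using h3

end Pool.Agent.Results.MP_5aad23_co.SemiBaxter
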